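import Pool.Agent.Helper37.OF.St2

/-!
# Project OF, module DEC: decomposition of the words of quadruples
-/

set_option autoImplicit false

namespace Pool.Agent.Helper29.OF

open Pool.Agent.Helper37.OF Monoid Pool.Agent.Helper4.FS

universe u v w x

/-- The decomposition for one element. -/
def PD {G : Type w} [Group G] {X : Type x} (τ : G) (z : X) (v : Fp G (Option X)) (a b : ℕ) :
    Prop :=
  ∃ (U : List (Fp G (Option X) × Bool)) (y' : Fp G (Option X)),
  (∀ p ∈ U, p.1 ∈ Sb G (Option X) {i | i ≠ some z}) ∧ y' ∈ Sb G (Option X) {i | i ≠ some z} ∧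
  v = (U.map fun p => p.1 * (if p.2 = true then ofi (some z) τ else (ofi (some z) τ)⁻¹)).prod
    * y' ∧
  (U.map Prod.snd).count true = a ∧
  (U.map Prod.snd).count false = b

section

variable {G : Type w} [Group G] {X : Type x} {τ : G} {z : X}

theorem pd_one : PD τ z (1 : Fp G (Option X)) 0 0 :=
  ⟨[], 1, by simp, Subgroup.one_mem _, by simp, by simp, by simp⟩

theorem pd_mul {d v : Fp G (Option X)} {a b : ℕ} (hd : d ∈ Sb G (Option X) {i | i ≠ some z})
    (h : PD τ z v a b) : PD τ z (d * v) a b := by
  obtain ⟨U, y', h1, h2, h3, h4, h5⟩ := h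
  cases U with
  | nil =>
    refine ⟨[], d * y', by simp, Subgroup.mul_mem _ hd h2, ?_, h4, h5⟩
    rw [h3]
    simp
  | cons q U =>
    refine ⟨(d * q.1, q.2) :: U, y', ?_, h2, ?_, ?_, ?_⟩
    · intro p hp
      rcases List.mem_cons.1 hp with rfl | hp
      · exact Subgroup.mul_mem _ hd (h1 q List.mem_cons_self)
      · exact h1 p (List.mem_cons_of_mem _ hp)
    · rw [h3]
      simp only [List.map_cons, List.prod_cons, mul_assoc]
    · simpa using h4
    · simpa using h5

theorem pd_e {v : Fp G (Option X)} {a b : ℕ} (h : PD τ z v a b) :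
    PD τ z (ofi (some z) τ * v) (a + 1) b := by
  obtain ⟨U, y', h1, h2, h3, h4, h5⟩ := h
  refine ⟨(1, true) :: U, y', ?_, h2, ?_, ?_, ?_⟩
  · intro p hp
    rcases List.mem_cons.1 hp with rfl | hp
    · exact Subgroup.one_mem _
    · exact h1 p hp
  · rw [h3]
    simp only [List.map_cons, List.prod_cons, mul_assoc, one_mul, if_true]
  · rw [List.map_cons, List.count_cons_self, h4]
  · rw [List.map_cons, List.count_cons_of_ne (by simp), h5]

theorem pd_einv {v : Fp G (Option X)} {a b : ℕ} (h : PD τ z v a b) :
    PD τ z ((ofi (some z) τ)⁻¹ * v) a (b + 1) := by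
  obtain ⟨U, y', h1, h2, h3, h4, h5⟩ := h
  refine ⟨(1, false) :: U, y', ?_, h2, ?_, ?_, ?_⟩
  · intro p hp
    rcases List.mem_cons.1 hp with rfl | hp
    · exact Subgroup.one_mem _
    · exact h1 p hp
  · rw [h3]
    simp [mul_assoc]
  · rw [List.map_cons, List.count_cons_of_ne (by simp), h4]
  · rw [List.map_cons, List.count_cons_self, h5]

end

open Classical in
theorem pd_list {G : Type w} [Group G] {X : Type x} (τ : G) (z : X) (L : List (G × X × G × X)) :
    PD τ z (Wq τ L) ((L.map fun p => p.2.1).count z) ((L.map fun p => p.2.2.2).count z) := by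
  induction L with
  | nil =>
    have h : Wq τ ([] : List (G × X × G × X)) = 1 := by simp [Wq]
    rw [h]
    simpa using pd_one
  | cons q L ih =>
    obtain ⟨α, x, β, y⟩ := q
    have h : Wq τ ((α, x, β, y) :: L) = ofi none α * (ofi (some x) τ * (ofi none β *
        ((ofi (some y) τ)⁻¹ * Wq τ L))) := by
      simp only [Wq, List.map_cons, List.prod_cons, mul_assoc]
    rw [h]
    have hn : ∀ g : G, (ofi none g : Fp G (Option X)) ∈ Sb G (Option X) {i | i ≠ some z} :=
      fun g => ofi_mem (by simp) g
    have hy : PD τ z ((ofi (some y) τ)⁻¹ * Wq τ L) ((L.map fun p => p.2.1).count z)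
        ((((α, x, β, y) :: L).map fun p => p.2.2.2).count z) := by
      by_cases hyz : y = z
      · subst hyz
        rw [List.map_cons, List.count_cons_self]
        exact pd_einv ih
      · rw [List.map_cons, List.count_cons_of_ne hyz]
        refine pd_mul (Subgroup.inv_mem _ (ofi_mem ?_ τ)) ih
        simpa using hyz
    have hx : PD τ z (ofi (some x) τ * (ofi none β * ((ofi (some y) τ)⁻¹ * Wq τ L)))
        ((((α, x, β, y) :: L).map fun p => p.2.1).count z)
        ((((α, x, β, y) :: L).map fun p => p.2.2.2).count z) := by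
      by_cases hxz : x = z
      · subst hxz
        rw [List.map_cons, List.count_cons_self]
        exact pd_e (pd_mul (hn β) hy)
      · rw [List.map_cons, List.count_cons_of_ne hxz]
        refine pd_mul (ofi_mem ?_ τ) (pd_mul (hn β) hy)
        simpa using hxz
    exact pd_mul (hn α) hx

theorem hDEC : StDEC.{w, x} := by
  intro G _ X τ z L
  exact pd_list τ z L

end Pool.Agent.Helper29.OF
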